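import Pool.Agent.H14.QO4

set_option autoImplicit false
open Matrix Quaternion Pool.Agent.H14.QO

namespace Pool.Agent.Results.MP_554556_an.Definite

theorem result (n l : ℕ) (hl : 1 ≤ l) (A : ℕ → Matrix (Fin n) (Fin n) ℍ[ℝ]) (hA : Sym l A)
    (hinv : IsUnit (A l)) (hS : SBdd l A) (hC : IsUnit (Cm l A)) (a : ℍ[ℝ])
    (ha : ∃ v : Fin l × Fin n → ℍ[ℝ], v ≠ 0 ∧ Cm l A *ᵥ v = fun i => v i * a) :
    (∀ v : Fin l × Fin n → ℍ[ℝ], v ≠ 0 → (pm (Cm l A) a ^ (l * n)) *ᵥ v = 0 →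
      ∃ c : ℝ, 0 < c ∧ star v ⬝ᵥ (Gm l A * Cm l A) *ᵥ v = c) ∨
    (∀ v : Fin l × Fin n → ℍ[ℝ], v ≠ 0 → (pm (Cm l A) a ^ (l * n)) *ᵥ v = 0 →
      ∃ c : ℝ, c < 0 ∧ star v ⬝ᵥ (Gm l A * Cm l A) *ᵥ v = c) :=
  final l hl A hA hinv hS hC a ha

end Pool.Agent.Results.MP_554556_an.Definite
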